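import Mathlib

set_option autoImplicit false

/-!
Statements of project TI (thermal insulation, MP_ecdc1b_an).
-/

namespace Pool.Agent.N266.TI

open MeasureTheory Metric Set
open scoped ENNReal Pointwise ContDiff

/-- `ℝⁿ` -/
abbrev E (n : ℕ) := EuclideanSpace ℝ (Fin n)

/-- the unit vectors -/
noncomputable abbrev e {n : ℕ} (i : Fin n) : E n := EuclideanSpace.single i (1 : ℝ)

/-- the gradient -/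
noncomputable def gr {n : ℕ} (v : E n → ℝ) (x : E n) : E n :=
  WithLp.toLp 2 (fun i => fderiv ℝ v x (e i))

/-- the divergence -/
noncomputable def dv {n : ℕ} (X : E n → E n) (x : E n) : ℝ := ∑ i, (fderiv ℝ X x (e i)) i

/-- the Laplacian -/
noncomputable def lap {n : ℕ} (v : E n → ℝ) (x : E n) : ℝ :=
  ∑ i, fderiv ℝ (fun z => fderiv ℝ v z (e i)) x (e i)

/-- Dirichlet form -/
noncomputable def bil {n : ℕ} (φ ψ : E n → ℝ) : ℝ :=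
  ∫ x, ∑ i, fderiv ℝ φ x (e i) * fderiv ℝ ψ x (e i)

/-- Dirichlet energy on `ℝⁿ` -/
noncomputable def En {n : ℕ} (ψ : E n → ℝ) : ℝ := ∫ x, ‖gr ψ x‖ ^ 2

/-- `φ ∈ C_c^1(ℝⁿ)` and `φ ≥ 1` on `K` -/
def AdmF {n : ℕ} (K : Set (E n)) (φ : E n → ℝ) : Prop :=
  ContDiff ℝ 1 φ ∧ HasCompactSupport φ ∧ ∀ x ∈ K, 1 ≤ φ x

/-- `∫_{∂^*Ω} w dH^{n-1}`, i.e. the integral of `w` for the measure `|D 1_Ω|` -/
noncomputable def bdryInt {n : ℕ} (Ω : Set (E n)) (w : E n → ℝ) : ℝ≥0∞ :=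
  ⨆ (X : E n → E n) (_ : ContDiff ℝ 1 X ∧ HasCompactSupport X ∧ ∀ x, ‖X x‖ ≤ w x),
    ENNReal.ofReal (∫ x in Ω, dv X x)

/-- the energy of `φ` -/
noncomputable def energy {n : ℕ} (β : ℝ) (Ω : Set (E n)) (φ : E n → ℝ) : ℝ≥0∞ :=
  ENNReal.ofReal (∫ x in Ω, ‖gr φ x‖ ^ 2) + ENNReal.ofReal β * bdryInt Ω (fun x => φ x ^ 2)

/-- heat dispersion -/
noncomputable def disp {n : ℕ} (β δ : ℝ) (D : Set (E n)) : ℝ≥0∞ :=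
  ⨅ (φ : E n → ℝ) (_ : AdmF (closure D) φ), energy β (D + ball (0 : E n) δ) φ

/-- admissible sets -/
def AdmD {n : ℕ} (D : Set (E n)) : Prop := Bornology.IsBounded D ∧ IsOpen D ∧ IsConnected D

/-- capacity -/
noncomputable def cap {n : ℕ} (K : Set (E n)) : ℝ := sInf (En '' {φ | AdmF K φ})

/-! ### leaves -/

/-- mean value identity with an explicit kernel -/
def MV1 : Prop := ∀ n : ℕ, 1 ≤ n → ∃ (σ T : E n → ℝ) (A c : ℝ), 0 < A ∧ 0 < c ∧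
  ContDiff ℝ 1 σ ∧ Continuous T ∧ (∀ z, 0 ≤ σ z) ∧ (∀ z, 0 ≤ T z) ∧
  (∀ z, 1 ≤ ‖z‖ → σ z = 0 ∧ T z = 0) ∧ ∫ z, σ z = 1 ∧
  (∀ z, ‖z‖ ≤ 3 / 4 → c ≤ σ z) ∧
  (∀ z i, |fderiv ℝ σ z (e i)| ≤ A * σ ((1 / 2 : ℝ) • z)) ∧
  ∀ v : E n → ℝ, ContDiff ℝ 2 v → ∀ (x : E n) (r : ℝ), 0 < r →
    v x = (∫ z, v (x - r • z) * σ z) -
      r ^ 2 * ∫ t in (0 : ℝ)..1, t * ∫ z, lap v (x - (t * r) • z) * T z

/-- local estimates for almost harmonic functions -/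
def MV2 : Prop := ∀ n : ℕ, 1 ≤ n → ∃ A c B : ℝ, 0 < A ∧ 0 < c ∧ 0 < B ∧
  ∀ v : E n → ℝ, ContDiff ℝ 3 v → (∀ x, 0 ≤ v x) → ∀ (x : E n) (r τ : ℝ), 0 < r → 0 ≤ τ →
    ((∀ y ∈ closedBall x r, lap v y ≤ τ) →
      c * (r⁻¹) ^ n * (∫ y in ball x (3 / 4 * r), v y) ≤ v x + B * r ^ 2 * τ) ∧
    ((∀ y ∈ closedBall x r, |lap v y| ≤ τ ∧ ∀ i, |fderiv ℝ (lap v) y (e i)| ≤ τ) →
      ‖gr v x‖ ≤ A / r * v x + B * (r + r ^ 2) * τ)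

def MV2i : Prop := MV1 → MV2

/-- first variation of almost minimizers -/
def VAR : Prop := ∀ (n : ℕ) (K : Set (E n)) (ψ ζ : E n → ℝ) (κ : ℝ), 0 < κ → AdmF K ψ →
  En ψ ≤ cap K + κ ^ 2 → ContDiff ℝ 1 ζ → HasCompactSupport ζ →
  (∀ x ∈ K, 1 ≤ ψ x + κ * ζ x) → -(κ * (1 + En ζ) / 2) ≤ bil ψ ζ

/-- bounded almost minimizers -/
def NM : Prop := ∀ (n : ℕ) (K : Set (E n)), IsCompact K → ∀ κ θ : ℝ, 0 < κ → 0 < θ →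
  ∃ ψ : E n → ℝ, AdmF K ψ ∧ (∀ x, 0 ≤ ψ x ∧ ψ x ≤ 1 + θ) ∧ En ψ ≤ cap K + κ

/-- mollification -/
def CV : Prop := ∀ (n : ℕ) (ε : ℝ), 0 < ε → ∃ ρ : E n → ℝ, ContDiff ℝ ∞ ρ ∧
  HasCompactSupport ρ ∧ (∀ x, 0 ≤ ρ x) ∧ (∀ x, ε ≤ ‖x‖ → ρ x = 0) ∧ ∫ x, ρ x = 1 ∧
  ∀ ψ : E n → ℝ, ContDiff ℝ 1 ψ → HasCompactSupport ψ → ∃ v : E n → ℝ,
    (∀ x, v x = ∫ y, ψ y * ρ (x - y)) ∧ ContDiff ℝ 3 v ∧ HasCompactSupport v ∧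
    (∀ x, - lap v x = bil ψ (fun y => ρ (x - y))) ∧
    (∀ x i, - fderiv ℝ (lap v) x (e i) = bil ψ (fun y => fderiv ℝ ρ (x - y) (e i))) ∧
    ∀ χ : E n → ℝ, ContDiff ℝ 1 χ → HasCompactSupport χ →
      ∫ x, - lap v x * χ x = bil ψ (fun y => ∫ x, χ x * ρ (x - y))

/-- consequences for almost minimizers (from `VAR`, `CV`) -/
def AM : Prop := ∀ (n : ℕ) (K : Set (E n)) (ε : ℝ) (χ : E n → ℝ), IsCompact K → K.Nonempty →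
  0 < ε → ε < 1 →
  ContDiff ℝ 1 χ → HasCompactSupport χ → (∀ x, infDist x K ≤ 1 → χ x = 1) →
  ∃ M : ℝ, 0 < M ∧ ∀ (κ θ : ℝ) (ψ : E n → ℝ), 0 < κ → κ < 1 → 0 < θ → AdmF K ψ →
    (∀ x, 0 ≤ ψ x ∧ ψ x ≤ 1 + θ) → En ψ ≤ cap K + κ ^ 2 →
    ∃ v : E n → ℝ, ContDiff ℝ 3 v ∧ (∀ x, 0 ≤ v x ∧ v x ≤ 1 + θ) ∧
      (∀ x, closedBall x ε ⊆ K → 1 ≤ v x) ∧
      (∀ x, lap v x ≤ M * κ) ∧
      (∀ x, ε < infDist x K → |lap v x| ≤ M * κ ∧ ∀ i, |fderiv ℝ (lap v) x (e i)| ≤ M * κ) ∧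
      cap K - M * κ ≤ ∫ x, - lap v x * χ x

def AMi : Prop := VAR → CV → AM

/-- Gauss–Green inequality for the weighted perimeter -/
def GG : Prop := ∀ (n : ℕ) (Ω N : Set (E n)) (X : E n → E n) (w : E n → ℝ) (β : ℝ), 0 < β →
  IsOpen Ω → Bornology.IsBounded Ω → IsOpen N → frontier Ω ⊆ N →
  (∀ x ∈ closure Ω, ContDiffAt ℝ 1 X x) → (∀ x ∈ N, ‖X x‖ ≤ β * w x) → (∀ x, 0 ≤ w x) →
  bdryInt Ω w ≠ ⊤ → -(β * (bdryInt Ω w).toReal) ≤ ∫ x in Ω, dv X x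

/-- Picone identity -/
def PI : Prop := ∀ (n : ℕ) (φ u : E n → ℝ) (x : E n), ContDiff ℝ 1 φ → ContDiff ℝ 2 u →
  0 < u x → ContDiffAt ℝ 1 (fun y => (φ y ^ 2 / u y) • gr u y) x ∧
    dv (fun y => (φ y ^ 2 / u y) • gr u y) x + φ x ^ 2 * (- lap u x) / u x ≤ ‖gr φ x‖ ^ 2

/-- calibration -/
def CAL : Prop := ∀ (n : ℕ) (K : Set (E n)) (δ β : ℝ) (φ u : E n → ℝ), IsCompact K →
  K.Nonempty → 0 < δ → 0 < β → ContDiff ℝ 1 φ → HasCompactSupport φ → ContDiff ℝ 2 u →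
  (∀ x, infDist x K ≤ 3 / 2 * δ → 0 < u x) →
  (∀ x, 3 / 4 * δ ≤ infDist x K → infDist x K ≤ 3 / 2 * δ → ‖gr u x‖ ≤ β * u x) →
  ENNReal.ofReal (∫ x in thickening δ K, φ x ^ 2 * (- lap u x) / u x) ≤
    energy β (thickening δ K) φ

def CALi : Prop := GG → PI → CAL

/-- cut-off functions -/
def CUT : Prop := ∀ n : ℕ, ∃ C : ℝ, 0 < C ∧ ∀ (Γ : Set (E n)) (s : ℝ), IsCompact Γ →
  Γ.Nonempty → 0 < s → ∃ χ : E n → ℝ, ContDiff ℝ 1 χ ∧ HasCompactSupport χ ∧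
    (∀ x, 0 ≤ χ x ∧ χ x ≤ 1) ∧ (∀ x, infDist x Γ ≤ s → χ x = 1) ∧
    (∀ x, 2 * s ≤ infDist x Γ → χ x = 0) ∧ ∀ x, ‖gr χ x‖ ≤ C / s

/-- neighbourhoods of segments -/
def SEG : Prop := ∀ (n : ℕ), 1 ≤ n → ∀ a b : E n, ∃ C : ℝ, 0 < C ∧ ∀ s : ℝ, 0 < s → s ≤ 1 →
  volume (cthickening s (segment ℝ a b)) ≤ ENNReal.ofReal (C * s ^ (n - 1))

/-- a star -/
def star {n : ℕ} (x₀ : E n) (F : Finset (E n)) : Set (E n) := ⋃ p ∈ F, segment ℝ x₀ p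

/-- stars have capacity zero, `n ≥ 3` -/
def STAR : Prop := ∀ n : ℕ, 3 ≤ n → ∀ (x₀ : E n) (F : Finset (E n)), F.Nonempty →
  ∀ η ε : ℝ, 0 < η → 0 < ε → ∃ (s : ℝ) (χ : E n → ℝ), 0 < s ∧ s < η ∧ ContDiff ℝ 1 χ ∧
    HasCompactSupport χ ∧ (∀ x, 0 ≤ χ x) ∧ (∀ x, infDist x (star x₀ F) ≤ s → 1 ≤ χ x) ∧
    (∀ x, η ≤ infDist x (star x₀ F) → χ x = 0) ∧ En χ ≤ ε

def STARi : Prop := CUT → SEG → STAR

/-- no boundary integral for weights supported inside -/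
def BZ : Prop := ∀ (n : ℕ) (Ω : Set (E n)) (w : E n → ℝ), IsOpen Ω → HasCompactSupport w →
  tsupport w ⊆ Ω → bdryInt Ω w = 0

/-- triangle inequality and scaling for the energy -/
def ENE : Prop := ∀ (n : ℕ) (φ ψ : E n → ℝ) (b t l : ℝ), ContDiff ℝ 1 φ → HasCompactSupport φ →
  ContDiff ℝ 1 ψ → HasCompactSupport ψ → 0 < t → 0 < l → 2 ≤ n → l ≤ 1 →
    En (fun x => φ x + b * ψ x) ≤ (1 + t) * En φ + (1 + 1 / t) * b ^ 2 * En ψ ∧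
    En (fun x => φ (l⁻¹ • x)) ≤ En φ

/-- tentacles -/
def TENT : Prop := ∀ n : ℕ, 3 ≤ n → ∀ (β δ ε m : ℝ) (D : Set (E n)) (ψ : E n → ℝ), 0 < δ →
  0 < ε → AdmD D → volume D = ENNReal.ofReal m → 0 < m → AdmF (closure D) ψ →
  ∃ D' : Set (E n), AdmD D' ∧ volume D' = ENNReal.ofReal m ∧
    disp β δ D' ≤ ENNReal.ofReal (En ψ + ε)

def TENTi : Prop := STAR → BZ → ENE → TENT

/-- positive capacity, `n ≥ 3` -/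
def POS : Prop := ∀ n : ℕ, 3 ≤ n → ∀ K : Set (E n), IsCompact K → (interior K).Nonempty →
  0 < cap K

/-- lower bound -/
def LB : Prop := ∀ n : ℕ, 1 ≤ n → ∃ C : ℝ, 0 < C ∧ ∀ (D : Set (E n)) (β δ : ℝ), AdmD D →
  0 < δ → C ≤ β * δ → 0 < cap (closure D) → ∃ c : ℝ, cap (closure D) < c ∧
    ENNReal.ofReal c ≤ disp β δ D

def LBi : Prop := MV2 → AM → NM → CAL → LB

/-- the final statement -/
def FIN : Prop := ∀ n : ℕ, 3 ≤ n → ∃ C : ℝ, 0 < C ∧ ∀ β δ m : ℝ, 0 < β → 0 < δ → 0 < m →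
  C ≤ β * δ → ¬ ∃ D : Set (E n), AdmD D ∧ volume D = ENNReal.ofReal m ∧
    ∀ D' : Set (E n), AdmD D' → volume D' = ENNReal.ofReal m → disp β δ D ≤ disp β δ D'

end Pool.Agent.N266.TI
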