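import Pool.Agent.N266.TI.LbC
import Pool.Agent.N833.TI.MV1
import Pool.Agent.N596.TI.MV2
import Pool.Agent.N886.TI.Var
import Pool.Agent.N81.TI.NM
import Pool.Agent.N487.TI.Cv
import Pool.Agent.N622.TI.AMi
import Pool.Agent.N478.TI.GG
import Pool.Agent.N814.TI.PI
import Pool.Agent.N736.TI.CALi
import Pool.Agent.N169.TI.Cut
import Pool.Agent.N255.TI.SEG
import Pool.Agent.N186.TI.Star
import Pool.Agent.N383.TI.Ene
import Pool.Agent.N519.TI.TENT
import Pool.Agent.N628.TI.Pos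

set_option autoImplicit false

namespace Pool.Agent.N266.TI

open MeasureTheory Metric Set
open scoped ENNReal Pointwise ContDiff

theorem lb_ : LB :=
  lbi (Pool.Agent.N596.TI.mv2i Pool.Agent.N833.TI.t_MV1)
    (Pool.Agent.N622.TI.t Pool.Agent.N886.TI.var Pool.Agent.N487.TI.Cv.cv_)
    Pool.Agent.N81.TI.nm
    (Pool.Agent.N736.TI.CALi Pool.Agent.N478.TI.gg Pool.Agent.N814.TI.t_PI)

theorem tent_ : TENT :=
  Pool.Agent.N519.TI.TENTi' (Pool.Agent.N186.TI.Star.main Pool.Agent.N169.TI.cut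
    Pool.Agent.N255.TI.seg_) Pool.Agent.N383.TI.bz Pool.Agent.N383.TI.ene

lemma exists_near {n : ℕ} {K : Set (E n)} (hK : IsCompact K) {κ : ℝ} (hκ : 0 < κ) :
    ∃ ψ : E n → ℝ, AdmF K ψ ∧ En ψ ≤ cap K + κ := by
  obtain ⟨ψ, h1, _, h3⟩ := Pool.Agent.N81.TI.nm n K hK κ 1 hκ one_pos
  exact ⟨ψ, h1, h3⟩

theorem strong (n : ℕ) (hn : 3 ≤ n) : ∃ C : ℝ, 0 < C ∧ ∀ β δ : ℝ, 0 < β → 0 < δ → C ≤ β * δ →
    (∀ D : Set (E n), AdmD D → ENNReal.ofReal (cap (closure D)) < disp β δ D ∧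
      ∀ ε : ℝ, 0 < ε → ∃ D' : Set (E n), AdmD D' ∧ volume D' = volume D ∧
        disp β δ D' ≤ ENNReal.ofReal (cap (closure D) + ε)) ∧
    ∀ m : ℝ, 0 < m → ¬ ∃ D : Set (E n), AdmD D ∧ volume D = ENNReal.ofReal m ∧
      ∀ D' : Set (E n), AdmD D' → volume D' = ENNReal.ofReal m → disp β δ D ≤ disp β δ D' := by
  obtain ⟨C, hC, hlb⟩ := lb_ n (by omega)
  refine ⟨C, hC, fun β δ hβ hδ hCβ => ?_⟩
  have key : ∀ D : Set (E n), AdmD D → ENNReal.ofReal (cap (closure D)) < disp β δ D ∧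
      ∀ ε : ℝ, 0 < ε → ∃ D' : Set (E n), AdmD D' ∧ volume D' = volume D ∧
        disp β δ D' ≤ ENNReal.ofReal (cap (closure D) + ε) := by
    intro D hD
    have hKc : IsCompact (closure D) :=
      Metric.isCompact_of_isClosed_isBounded isClosed_closure hD.1.closure
    have hint : (interior (closure D)).Nonempty := by
      obtain ⟨x, hx⟩ := hD.2.2.nonempty
      exact ⟨x, interior_mono subset_closure (by rwa [hD.2.1.interior_eq])⟩
    have hcap : 0 < cap (closure D) := Pool.Agent.N628.TI.pos n hn (closure D) hKc hint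
    obtain ⟨c, hc, hcD⟩ := hlb D β δ hD hδ hCβ hcap
    refine ⟨lt_of_lt_of_le ((ENNReal.ofReal_lt_ofReal_iff (by linarith)).2 hc) hcD, ?_⟩
    intro ε hε
    obtain ⟨ψ, hψ, hψE⟩ := exists_near hKc (κ := ε / 2) (by positivity)
    have hvf : volume D ≠ ⊤ := hD.1.measure_lt_top.ne
    have hv0 : volume D ≠ 0 := (hD.2.1.measure_pos volume hD.2.2.nonempty).ne'
    have hm : 0 < (volume D).toReal := ENNReal.toReal_pos hv0 hvf
    obtain ⟨D', h1, h2, h3⟩ := tent_ n hn β δ (ε / 2) (volume D).toReal D ψ hδ (by positivity)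
      hD (ENNReal.ofReal_toReal hvf).symm hm hψ
    refine ⟨D', h1, by rw [h2, ENNReal.ofReal_toReal hvf], h3.trans ?_⟩
    exact ENNReal.ofReal_le_ofReal (by linarith)
  refine ⟨key, ?_⟩
  rintro m hm ⟨D, hD, hvD, hmin⟩
  obtain ⟨h1, h2⟩ := key D hD
  -- a small ε
  obtain ⟨ε, hε, hεD⟩ : ∃ ε : ℝ, 0 < ε ∧
      ENNReal.ofReal (cap (closure D) + ε) < disp β δ D := by
    have hKc : IsCompact (closure D) :=
      Metric.isCompact_of_isClosed_isBounded isClosed_closure hD.1.closure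
    have hint : (interior (closure D)).Nonempty := by
      obtain ⟨x, hx⟩ := hD.2.2.nonempty
      exact ⟨x, interior_mono subset_closure (by rwa [hD.2.1.interior_eq])⟩
    have hcap : 0 < cap (closure D) := Pool.Agent.N628.TI.pos n hn (closure D) hKc hint
    obtain ⟨c, hc, hcD⟩ := hlb D β δ hD hδ hCβ hcap
    refine ⟨(c - cap (closure D)) / 2, by linarith, lt_of_lt_of_le ?_ hcD⟩
    exact (ENNReal.ofReal_lt_ofReal_iff (by linarith)).2 (by linarith)
  obtain ⟨D', h3, h4, h5⟩ := h2 ε hε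
  have h6 := hmin D' h3 (h4.trans hvD)
  exact absurd (h6.trans h5) (not_le.2 hεD)

end Pool.Agent.N266.TI
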