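import Pool.Agent.N266.TI.Stm

set_option autoImplicit false

namespace Pool.Agent.N266.TI

open MeasureTheory Metric Set
open scoped ENNReal Pointwise ContDiff

/-- the auxiliary paraboloid -/
noncomputable def par {n : ℕ} (x0 : E n) (R : ℝ) (x : E n) : ℝ := R ^ 2 - ‖x - x0‖ ^ 2

lemma contDiff_par {n : ℕ} (x0 : E n) (R : ℝ) {k : WithTop ℕ∞} : ContDiff ℝ k (par x0 R) := by
  unfold par
  exact contDiff_const.sub ((contDiff_id.sub contDiff_const).norm_sq ℝ)

lemma hasFDerivAt_par {n : ℕ} (x0 : E n) (R : ℝ) (x : E n) :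
    HasFDerivAt (par x0 R) (-(2 • (innerSL ℝ (x - x0)))) x := by
  have h1 : HasFDerivAt (fun x : E n => x - x0) (ContinuousLinearMap.id ℝ (E n)) x :=
    (hasFDerivAt_id x).sub_const x0
  have h2 := h1.norm_sq
  have h3 := h2.const_sub (R ^ 2)
  refine h3.congr_fderiv ?_
  ext y
  simp

lemma fderiv_par {n : ℕ} (x0 : E n) (R : ℝ) (x : E n) (i : Fin n) :
    fderiv ℝ (par x0 R) x (e i) = -2 * (x i - x0 i) := by
  rw [(hasFDerivAt_par x0 R x).fderiv]
  simp [EuclideanSpace.inner_single_right]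

lemma lap_par {n : ℕ} (x0 : E n) (R : ℝ) (x : E n) : lap (par x0 R) x = -2 * n := by
  unfold lap
  have : ∀ i : Fin n, fderiv ℝ (fun z => fderiv ℝ (par x0 R) z (e i)) x (e i) = -2 := by
    intro i
    have h : (fun z : E n => fderiv ℝ (par x0 R) z (e i)) = fun z => -2 * (z i - x0 i) := by
      funext z; exact fderiv_par x0 R z i
    rw [h]
    have hp : HasFDerivAt (fun z : E n => -2 * (z i - x0 i))
        ((-2 : ℝ) • (EuclideanSpace.proj i : E n →L[ℝ] ℝ)) x := by
      have h1 : HasFDerivAt (fun z : E n => z i)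
          (EuclideanSpace.proj i : E n →L[ℝ] ℝ) x :=
        (EuclideanSpace.proj i : E n →L[ℝ] ℝ).hasFDerivAt
      exact (h1.sub_const (x0 i)).const_mul (-2)
    rw [hp.fderiv]
    simp
  simp only [this, Finset.sum_const, Finset.card_univ, Fintype.card_fin, nsmul_eq_mul]
  ring

lemma norm_gr_par {n : ℕ} (x0 : E n) (R : ℝ) (x : E n) : ‖gr (par x0 R) x‖ = 2 * ‖x - x0‖ := by
  have : gr (par x0 R) x = (-2 : ℝ) • (x - x0) := by
    unfold gr
    ext i
    simp only [fderiv_par]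
    simp
  rw [this, norm_smul]
  norm_num

/-- the calibrating function -/
noncomputable def cal {n : ℕ} (v : E n → ℝ) (x0 : E n) (R τ ε0 : ℝ) (x : E n) : ℝ :=
  v x + τ * par x0 R x - ε0

lemma contDiff_cal {n : ℕ} {v : E n → ℝ} (hv : ContDiff ℝ 3 v) (x0 : E n) (R τ ε0 : ℝ) :
    ContDiff ℝ 2 (cal v x0 R τ ε0) := by
  unfold cal
  exact ((hv.of_le (by norm_num)).add (contDiff_const.mul (contDiff_par x0 R))).sub contDiff_const

lemma fderiv_cal {n : ℕ} {v : E n → ℝ} (hv : ContDiff ℝ 3 v) (x0 : E n) (R τ ε0 : ℝ) (x : E n)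
    (i : Fin n) : fderiv ℝ (cal v x0 R τ ε0) x (e i) =
      fderiv ℝ v x (e i) + τ * fderiv ℝ (par x0 R) x (e i) := by
  have h1 : HasFDerivAt v (fderiv ℝ v x) x := (hv.differentiable (by norm_num) x).hasFDerivAt
  have h2 := (hasFDerivAt_par x0 R x)
  have h3 := (h1.add (h2.const_mul τ)).sub_const ε0
  have h4 : HasFDerivAt (cal v x0 R τ ε0) _ x := h3
  rw [h4.fderiv, h2.fderiv]
  simp

lemma gr_cal {n : ℕ} {v : E n → ℝ} (hv : ContDiff ℝ 3 v) (x0 : E n) (R τ ε0 : ℝ) (x : E n) :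
    gr (cal v x0 R τ ε0) x = gr v x + τ • gr (par x0 R) x := by
  unfold gr
  ext i
  simp only [fderiv_cal hv]
  simp

lemma lap_cal {n : ℕ} {v : E n → ℝ} (hv : ContDiff ℝ 3 v) (x0 : E n) (R τ ε0 : ℝ) (x : E n) :
    lap (cal v x0 R τ ε0) x = lap v x - 2 * n * τ := by
  have hs : ∀ i : Fin n, fderiv ℝ (fun z => fderiv ℝ (cal v x0 R τ ε0) z (e i)) x (e i) =
      fderiv ℝ (fun z => fderiv ℝ v z (e i)) x (e i) +
        τ * fderiv ℝ (fun z => fderiv ℝ (par x0 R) z (e i)) x (e i) := by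
    intro i
    have h : (fun z : E n => fderiv ℝ (cal v x0 R τ ε0) z (e i)) =
        fun z => fderiv ℝ v z (e i) + τ * fderiv ℝ (par x0 R) z (e i) := by
      funext z; exact fderiv_cal hv x0 R τ ε0 z i
    rw [h]
    have d1 : DifferentiableAt ℝ (fun z => fderiv ℝ v z (e i)) x := by
      have : ContDiff ℝ 1 (fun z => fderiv ℝ v z (e i)) :=
        (hv.fderiv_right (m := 1) (by norm_num)).clm_apply contDiff_const
      exact this.differentiable (by norm_num) x
    have d2 : DifferentiableAt ℝ (fun z => fderiv ℝ (par x0 R) z (e i)) x := by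
      have : ContDiff ℝ 1 (fun z => fderiv ℝ (par x0 R) z (e i)) :=
        ((contDiff_par x0 R (k := 2)).fderiv_right (m := 1) (by norm_num)).clm_apply contDiff_const
      exact this.differentiable (by norm_num) x
    rw [fderiv_fun_add d1 (d2.const_mul τ), fderiv_const_mul d2 τ]
    simp
  have : lap (cal v x0 R τ ε0) x = lap v x + τ * lap (par x0 R) x := by
    unfold lap
    rw [Finset.sum_congr rfl (fun i _ => hs i), Finset.sum_add_distrib, Finset.mul_sum]
  rw [this, lap_par]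
  ring

end Pool.Agent.N266.TI
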