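import Pool.Agent.N266.TI.LbA

set_option autoImplicit false

namespace Pool.Agent.N266.TI

open MeasureTheory Metric Set
open scoped ENNReal Pointwise ContDiff

lemma continuous_lap {n : ℕ} {v : E n → ℝ} (hv : ContDiff ℝ 2 v) : Continuous (lap v) := by
  unfold lap
  refine continuous_finset_sum _ fun i _ => ?_
  have h1 : ContDiff ℝ 1 (fun z => fderiv ℝ v z (e i)) :=
    (hv.fderiv_right (m := 1) (by norm_num)).clm_apply contDiff_const
  exact ((h1.continuous_fderiv (by norm_num)).clm_apply continuous_const)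

lemma thick_eq {n : ℕ} {K : Set (E n)} (hK : K.Nonempty) (δ : ℝ) :
    thickening δ K = {x | infDist x K < δ} := by
  ext x
  rw [mem_thickening_iff, mem_setOf_eq, infDist_lt_iff hK]

theorem core (hCAL : CAL) {n : ℕ} (hn : 1 ≤ n) {K : Set (E n)} (hK : IsCompact K)
    (hKn : K.Nonempty) (x0 : E n) {R1 δ β ε θ τ ε0 c0 G : ℝ} {φ v χ : E n → ℝ}
    (hδ : 0 < δ) (hβ : 0 < β) (hε : 0 < ε) (hθ : 0 < θ) (hθ1 : θ < 1) (hτ : 0 < τ)
    (hR1 : 0 ≤ R1)
    (hreg : ∀ x, infDist x K ≤ 3 / 2 * δ → ‖x - x0‖ ≤ R1)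
    (hφ : AdmF K φ) (hφ1 : ∀ x, infDist x K ≤ ε → 1 - θ ≤ φ x ^ 2)
    (hv : ContDiff ℝ 3 v) (hv0 : ∀ x, 0 ≤ v x ∧ v x ≤ 1 + θ)
    (hlap : ∀ x, lap v x ≤ τ) (hoff : ∀ x, ε < infDist x K → |lap v x| ≤ τ)
    (hc0 : ∀ x, ‖x - x0‖ ≤ R1 → c0 ≤ v x)
    (hgr : ∀ x, 3 / 4 * δ ≤ infDist x K → ‖gr v x‖ ≤ β / 2 * v x + G * τ)
    (hε0 : 0 < ε0) (hε01 : ε0 ≤ c0 / 4) (hε02 : ε0 ≤ 1 / 4)
    (hτG : τ * (G + 2 * R1) ≤ β * c0 / 4)
    (hχ : ContDiff ℝ 1 χ) (hχs : HasCompactSupport χ) (hχ1 : ∀ x, infDist x K ≤ 1 → χ x = 1)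
    (hε1 : ε < 1) (hεδ : ε < δ)
    (hint : cap K - τ ≤ ∫ x, - lap v x * χ x) :
    ENNReal.ofReal ((1 - θ) / (1 + θ + τ * R1 ^ 2 - ε0) * (cap K - τ * (1 + ∫ x, |χ x|))) ≤
      energy β (thickening δ K) φ := by
  set u := cal v x0 R1 τ ε0 with hu
  set U := 1 + θ + τ * R1 ^ 2 - ε0 with hU
  have hc0p : 0 < c0 := by linarith
  have hUpos : 0 < U := by
    have : 0 ≤ τ * R1 ^ 2 := by positivity
    rw [hU]; linarith
  have hlapu : ∀ x, - lap u x = - lap v x + 2 * n * τ := by
    intro x; rw [hu, lap_cal hv]; ring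
  have hnn : (1 : ℝ) ≤ n := by exact_mod_cast hn
  have hlapu0 : ∀ x, 0 ≤ - lap u x := by
    intro x; rw [hlapu]; nlinarith [hlap x]
  have hlapuv : ∀ x, - lap v x ≤ - lap u x := by
    intro x; rw [hlapu]
    have : 0 ≤ 2 * (n : ℝ) * τ := by positivity
    linarith
  have hpar : ∀ x, ‖x - x0‖ ≤ R1 → 0 ≤ par x0 R1 x := by
    intro x hx
    unfold par
    have := norm_nonneg (x - x0)
    nlinarith
  have hupos : ∀ x, infDist x K ≤ 3 / 2 * δ → 0 < u x := by
    intro x hx
    have h1 := hreg x hx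
    have h2 := hc0 x h1
    have h3 := mul_nonneg hτ.le (hpar x h1)
    simp only [hu, cal]
    linarith
  have huU : ∀ x, u x ≤ U := by
    intro x
    have h1 := (hv0 x).2
    have h2 : par x0 R1 x ≤ R1 ^ 2 := by
      unfold par; nlinarith [norm_nonneg (x - x0)]
    have h3 := mul_le_mul_of_nonneg_left h2 hτ.le
    simp only [hu, cal, hU]
    linarith
  have hug : ∀ x, 3 / 4 * δ ≤ infDist x K → infDist x K ≤ 3 / 2 * δ → ‖gr u x‖ ≤ β * u x := by
    intro x h1 h2
    have h3 := hreg x h2
    have h4 := hc0 x h3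
    have h5 := hgr x h1
    have h6 : ‖gr u x‖ ≤ ‖gr v x‖ + τ * (2 * R1) := by
      rw [hu, gr_cal hv]
      refine (norm_add_le _ _).trans ?_
      rw [norm_smul, norm_gr_par, Real.norm_eq_abs, abs_of_pos hτ]
      have : τ * (2 * ‖x - x0‖) ≤ τ * (2 * R1) := by
        apply mul_le_mul_of_nonneg_left _ hτ.le
        linarith
      linarith
    have h7 := mul_nonneg hτ.le (hpar x h3)
    have h8 : β * ε0 ≤ β * c0 / 4 := by nlinarith
    have h9 : β * c0 ≤ β * v x := mul_le_mul_of_nonneg_left h4 hβ.le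
    have h10 : 0 ≤ β * (τ * par x0 R1 x) := mul_nonneg hβ.le h7
    have h11 : β * u x = β * v x + β * (τ * par x0 R1 x) - β * ε0 := by
      simp only [hu, cal]; ring
    rw [h11]
    nlinarith
  have hcal := hCAL n K δ β φ u hK hKn hδ hβ hφ.1 hφ.2.1 (contDiff_cal hv x0 R1 τ ε0) hupos hug
  refine le_trans (ENNReal.ofReal_le_ofReal ?_) hcal
  -- the integral
  set g : E n → ℝ := fun x => φ x ^ 2 * (- lap u x) / u x with hg
  have hcdist : Continuous fun x : E n => infDist x K := continuous_infDist_pt K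
  have hWc : IsCompact {x : E n | infDist x K ≤ 3 / 2 * δ} := by
    refine Metric.isCompact_of_isClosed_isBounded (isClosed_le hcdist continuous_const) ?_
    refine (isBounded_closedBall (x := x0) (r := R1)).subset ?_
    intro x hx
    rw [mem_closedBall, dist_eq_norm]
    exact hreg x hx
  have hgW : IntegrableOn g {x : E n | infDist x K ≤ 3 / 2 * δ} := by
    apply ContinuousOn.integrableOn_compact hWc
    have c1 : Continuous fun x => φ x ^ 2 * (- lap u x) :=
      (hφ.1.continuous.pow 2).mul (continuous_lap (contDiff_cal hv x0 R1 τ ε0)).neg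
    exact c1.continuousOn.div (contDiff_cal hv x0 R1 τ ε0).continuous.continuousOn
      (fun x hx => (hupos x hx).ne')
  set Ke : Set (E n) := {x | infDist x K ≤ ε} with hKe
  have hKeW : Ke ⊆ {x : E n | infDist x K ≤ 3 / 2 * δ} := by
    intro x hx
    simp only [hKe, mem_setOf_eq] at hx ⊢
    linarith
  have hKem : MeasurableSet Ke := (isClosed_le hcdist continuous_const).measurableSet
  have hOm : thickening δ K ⊆ {x : E n | infDist x K ≤ 3 / 2 * δ} := by
    intro x hx
    rw [thick_eq hKn] at hx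
    simp only [mem_setOf_eq] at hx ⊢
    linarith
  have hKeO : Ke ⊆ thickening δ K := by
    intro x hx
    rw [thick_eq hKn]
    simp only [hKe, mem_setOf_eq] at hx ⊢
    linarith
  have hgO : IntegrableOn g (thickening δ K) := hgW.mono_set hOm
  have hg0 : ∀ x ∈ thickening δ K, 0 ≤ g x := by
    intro x hx
    have := hupos x (hOm hx)
    simp only [hg]
    exact div_nonneg (mul_nonneg (sq_nonneg _) (hlapu0 x)) this.le
  have step1 : ∫ x in Ke, g x ≤ ∫ x in thickening δ K, g x := by
    apply setIntegral_mono_set hgO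
    · filter_upwards [ae_restrict_mem isOpen_thickening.measurableSet] with x hx using hg0 x hx
    · exact HasSubset.Subset.eventuallyLE hKeO
  have hlvc : Continuous fun x => - lap v x := (continuous_lap (hv.of_le (by norm_num))).neg
  have hKec : IsCompact Ke := hWc.of_isClosed_subset (isClosed_le hcdist continuous_const) hKeW
  have step2 : (1 - θ) / U * ∫ x in Ke, - lap v x ≤ ∫ x in Ke, g x := by
    rw [← integral_const_mul]
    apply setIntegral_mono_on
    · exact (hlvc.continuousOn.integrableOn_compact hKec).const_mul _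
    · exact hgW.mono_set hKeW
    · exact hKem
    · intro x hx
      have p1 := hupos x (hKeW hx)
      have p2 := huU x
      have p3 := hφ1 x hx
      have p4 := hlapu0 x
      have p5 := hlapuv x
      have q1 : (1 - θ) / U * (- lap v x) ≤ (1 - θ) / U * (- lap u x) :=
        mul_le_mul_of_nonneg_left p5 (div_nonneg (by linarith) hUpos.le)
      have q2 : (1 - θ) / U * (- lap u x) ≤ (1 - θ) / u x * (- lap u x) := by
        apply mul_le_mul_of_nonneg_right _ p4
        exact div_le_div_of_nonneg_left (by linarith) p1 p2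
      have q3 : (1 - θ) / u x * (- lap u x) ≤ g x := by
        simp only [hg]
        rw [div_mul_eq_mul_div]
        apply div_le_div_of_nonneg_right _ p1.le
        exact mul_le_mul_of_nonneg_right p3 p4
      linarith
  have hfc : Continuous fun x => - lap v x * χ x := hlvc.mul hχ.continuous
  have hfi : Integrable fun x => - lap v x * χ x :=
    hfc.integrable_of_hasCompactSupport hχs.mul_left
  have hai : Integrable fun x => |χ x| :=
    (hχ.continuous.abs).integrable_of_hasCompactSupport hχs.abs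
  have step3 : cap K - τ * (1 + ∫ x, |χ x|) ≤ ∫ x in Ke, - lap v x := by
    have e1 : ∫ x in Ke, - lap v x = ∫ x in Ke, - lap v x * χ x := by
      apply setIntegral_congr_fun hKem
      intro x hx
      have : χ x = 1 := hχ1 x (by
        simp only [hKe, mem_setOf_eq] at hx
        linarith)
      simp [this]
    have e2 := integral_add_compl hKem hfi
    have e3 : ∫ x in Keᶜ, - lap v x * χ x ≤ τ * ∫ x, |χ x| := by
      have : ∫ x in Keᶜ, - lap v x * χ x ≤ ∫ x in Keᶜ, τ * |χ x| := by
        apply setIntegral_mono_on hfi.integrableOn (hai.const_mul τ).integrableOn hKem.compl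
        intro x hx
        have h1 : ε < infDist x K := by
          simpa [hKe] using hx
        have h2 := hoff x h1
        calc - lap v x * χ x ≤ |- lap v x * χ x| := le_abs_self _
          _ = |lap v x| * |χ x| := by rw [abs_mul, abs_neg]
          _ ≤ τ * |χ x| := mul_le_mul_of_nonneg_right h2 (abs_nonneg _)
      refine this.trans ?_
      rw [← integral_const_mul]
      apply setIntegral_le_integral (hai.const_mul τ)
      filter_upwards with x
      positivity
    rw [e1]
    linarith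
  calc (1 - θ) / U * (cap K - τ * (1 + ∫ x, |χ x|))
      ≤ (1 - θ) / U * ∫ x in Ke, - lap v x :=
        mul_le_mul_of_nonneg_left step3 (div_nonneg (by linarith) hUpos.le)
    _ ≤ ∫ x in Ke, g x := step2
    _ ≤ ∫ x in thickening δ K, g x := step1

end Pool.Agent.N266.TI
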