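import Pool.Agent.N266.TI.LbB

set_option autoImplicit false

namespace Pool.Agent.N266.TI

open MeasureTheory Metric Set
open scoped ENNReal Pointwise ContDiff

lemma exists_eps {n : ℕ} {K : Set (E n)} (hK : K.Nonempty) {φ : E n → ℝ}
    (hφ : AdmF K φ) {θ : ℝ} (hθ : 0 < θ) (hθ1 : θ < 1) :
    ∃ ε : ℝ, 0 < ε ∧ ∀ x, infDist x K ≤ ε → 1 - θ ≤ φ x ^ 2 := by
  have huc : UniformContinuous φ := hφ.1.continuous.uniformContinuous_of_tendsto_cocompact
    (x := 0) (hφ.2.1.is_zero_at_infty)
  obtain ⟨d, hd, hd2⟩ := Metric.uniformContinuous_iff.1 huc (θ / 2) (by positivity)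
  refine ⟨d / 2, by positivity, fun x hx => ?_⟩
  obtain ⟨y, hy, hxy⟩ := (infDist_lt_iff hK (r := d)).1 (lt_of_le_of_lt hx (by linarith))
  have h1 := hd2 hxy
  rw [Real.dist_eq] at h1
  have h2 := hφ.2.2 y hy
  have h3 := (abs_lt.1 h1).1
  nlinarith

theorem lbi : LBi := by
  intro hMV hAM hNM hCAL n hn
  obtain ⟨A, c, B, hA, hc, hB, hMV⟩ := hMV n hn
  refine ⟨8 * A, by positivity, ?_⟩
  intro D β δ hD hδ hCβ hcap
  set K := closure D with hKdef
  have hβ : 0 < β := by
    by_contra h
    have h' : β ≤ 0 := not_lt.1 h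
    have : β * δ ≤ 0 := mul_nonpos_of_nonpos_of_nonneg h' hδ.le
    linarith
  have hKn : K.Nonempty := hD.2.2.nonempty.closure
  have hKb : Bornology.IsBounded K := hD.1.closure
  have hKc : IsCompact K := Metric.isCompact_of_isClosed_isBounded isClosed_closure hKb
  obtain ⟨x0, hx0⟩ := hD.2.2.nonempty
  obtain ⟨ρ, hρ, hρD⟩ := Metric.isOpen_iff.1 hD.2.1 x0 hx0
  set r0 := ρ / 3 with hr0
  have hr0p : 0 < r0 := by positivity
  obtain ⟨R, hRK⟩ := hKb.subset_closedBall x0
  have hx0K : x0 ∈ K := subset_closure hx0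
  have hR0 : 0 ≤ R := by
    have := hRK hx0K
    rw [mem_closedBall, dist_self] at this
    exact this
  set R1 := R + 2 * δ + r0 with hR1
  have hR1p : 0 < R1 := by positivity
  have hreg : ∀ x, infDist x K ≤ 3 / 2 * δ → ‖x - x0‖ ≤ R1 := by
    intro x hx
    obtain ⟨y, hy, hxy⟩ := (infDist_lt_iff hKn (r := 2 * δ)).1 (lt_of_le_of_lt hx (by linarith))
    have h1 := hRK hy
    rw [mem_closedBall] at h1
    rw [← dist_eq_norm]
    have := dist_triangle x y x0
    linarith
  set r' := 4 * R1 with hr'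
  have hr'p : 0 < r' := by positivity
  set V0 := (volume (ball x0 r0)).toReal with hV0
  have hV0p : 0 < V0 := ENNReal.toReal_pos (measure_ball_pos volume x0 hr0p).ne'
    measure_ball_lt_top.ne
  set c1 := c * (r'⁻¹) ^ n * V0 with hc1
  have hc1p : 0 < c1 := by positivity
  set c0 := c1 / 2 with hc0
  have hc0p : 0 < c0 := by positivity
  set ε0 := min (c0 / 4) (1 / 4) with hε0
  have hε0p : 0 < ε0 := by positivity
  have hε01 : ε0 ≤ c0 / 4 := min_le_left _ _
  have hε02 : ε0 ≤ 1 / 4 := min_le_right _ _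
  set q := cap K with hq
  set cc := q / (1 - ε0 / 2) with hcc
  have h1e : 0 < 1 - ε0 / 2 := by linarith
  have hccq : q < cc := by
    rw [hcc, lt_div_iff₀ h1e]
    nlinarith
  have hccp : 0 < cc := hcap.trans hccq
  refine ⟨cc, hccq, ?_⟩
  unfold disp
  refine le_iInf fun φ => le_iInf fun hφ => ?_
  have hthick : D + ball (0 : E n) δ = thickening δ K := by
    rw [hKdef, thickening_closure, add_ball_zero]
  rw [hthick]
  -- the gap
  set gp := q - cc * (1 - ε0) with hgp
  have hgpp : 0 < gp := by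
    have : cc * (1 - ε0 / 2) = q := by
      rw [hcc]; exact div_mul_cancel₀ q h1e.ne'
    rw [hgp]
    nlinarith
  set θ := min (1 / 2) (gp / (2 * (q + cc))) with hθ
  have hθp : 0 < θ := by
    apply lt_min (by norm_num)
    have : 0 < q + cc := by linarith
    positivity
  have hθ1 : θ ≤ 1 / 2 := min_le_left _ _
  have hθ2 : θ * (q + cc) ≤ gp / 2 := by
    have : 0 < q + cc := by linarith
    have h := min_le_right (1 / 2 : ℝ) (gp / (2 * (q + cc)))
    calc θ * (q + cc) ≤ gp / (2 * (q + cc)) * (q + cc) := mul_le_mul_of_nonneg_right h this.le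
      _ = gp / 2 := by field_simp
  obtain ⟨ε1, hε1, hε1φ⟩ := exists_eps hKn hφ hθp (by linarith)
  set ε := min ε1 (min (1 / 2) (min (δ / 4) r0)) / 2 with hε
  have hmin : 0 < min ε1 (min (1 / 2) (min (δ / 4) r0)) := by positivity
  have hεp : 0 < ε := by positivity
  have hεl : ε < min ε1 (min (1 / 2) (min (δ / 4) r0)) := by rw [hε]; linarith
  have hεa : ε < ε1 := hεl.trans_le (min_le_left _ _)
  have hεb : ε < 1 / 2 := hεl.trans_le ((min_le_right _ _).trans (min_le_left _ _))
  have hεc : ε < δ / 4 :=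
    hεl.trans_le ((min_le_right _ _).trans ((min_le_right _ _).trans (min_le_left _ _)))
  have hεd : ε < r0 :=
    hεl.trans_le ((min_le_right _ _).trans ((min_le_right _ _).trans (min_le_right _ _)))
  -- the cut-off
  obtain ⟨χ, hχ, hχs, hχ1⟩ : ∃ χ : E n → ℝ, ContDiff ℝ 1 χ ∧ HasCompactSupport χ ∧
      ∀ x, infDist x K ≤ 1 → χ x = 1 := by
    let b : ContDiffBump x0 := ⟨R + 2, R + 3, by linarith, by linarith⟩
    refine ⟨b, b.contDiff, b.hasCompactSupport, fun x hx => ?_⟩
    apply b.one_of_mem_closedBall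
    obtain ⟨y, hy, hxy⟩ := (infDist_lt_iff hKn (r := 2)).1 (lt_of_le_of_lt hx (by norm_num))
    have h1 := hRK hy
    rw [mem_closedBall] at h1 ⊢
    have := dist_triangle x y x0
    change dist x x0 ≤ R + 2
    linarith
  obtain ⟨M, hM, hAM⟩ := hAM n K ε χ hKc hKn hεp (by linarith) hχ hχs hχ1
  set X1 := ∫ x, |χ x| with hX1
  have hX1p : 0 ≤ X1 := integral_nonneg fun x => abs_nonneg _
  set G := B * (δ / 4 + (δ / 4) ^ 2) with hG
  have hGp : 0 < G := by positivity
  -- the bound for τ
  set τ0 := min (c1 / (2 * (B * r' ^ 2))) (min (β * c0 / (4 * (G + 2 * R1)))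
    (gp / (2 * (1 + X1 + cc * R1 ^ 2 + q)))) with hτ0
  have hτ0p : 0 < τ0 := by
    have h3 : 0 < 1 + X1 + cc * R1 ^ 2 + q := by positivity
    positivity
  set κ := min (1 / 2) (τ0 / M) with hκ
  have hκp : 0 < κ := by positivity
  have hκ1 : κ < 1 := lt_of_le_of_lt (min_le_left _ _) (by norm_num)
  set τ := M * κ with hτ
  have hτp : 0 < τ := by positivity
  have hττ : τ ≤ τ0 := by
    have : κ ≤ τ0 / M := min_le_right _ _
    calc τ = M * κ := rfl
      _ ≤ M * (τ0 / M) := mul_le_mul_of_nonneg_left this hM.le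
      _ = τ0 := by field_simp
  have ht1 : B * r' ^ 2 * τ ≤ c1 / 2 := by
    have h1 : τ ≤ c1 / (2 * (B * r' ^ 2)) := hττ.trans (min_le_left _ _)
    have h2 : 0 < B * r' ^ 2 := by positivity
    calc B * r' ^ 2 * τ ≤ B * r' ^ 2 * (c1 / (2 * (B * r' ^ 2))) :=
          mul_le_mul_of_nonneg_left h1 h2.le
      _ = c1 / 2 := by field_simp
  have ht2 : τ * (G + 2 * R1) ≤ β * c0 / 4 := by
    have h1 : τ ≤ β * c0 / (4 * (G + 2 * R1)) :=
      hττ.trans ((min_le_right _ _).trans (min_le_left _ _))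
    have h2 : 0 < G + 2 * R1 := by positivity
    calc τ * (G + 2 * R1) ≤ β * c0 / (4 * (G + 2 * R1)) * (G + 2 * R1) :=
          mul_le_mul_of_nonneg_right h1 h2.le
      _ = β * c0 / 4 := by field_simp
  have ht3 : τ * (1 + X1 + cc * R1 ^ 2 + q) ≤ gp / 2 := by
    have h1 : τ ≤ gp / (2 * (1 + X1 + cc * R1 ^ 2 + q)) :=
      hττ.trans ((min_le_right _ _).trans (min_le_right _ _))
    have h2 : 0 < 1 + X1 + cc * R1 ^ 2 + q := by positivity
    calc τ * (1 + X1 + cc * R1 ^ 2 + q)
        ≤ gp / (2 * (1 + X1 + cc * R1 ^ 2 + q)) * (1 + X1 + cc * R1 ^ 2 + q) :=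
          mul_le_mul_of_nonneg_right h1 h2.le
      _ = gp / 2 := by field_simp
  obtain ⟨ψ, hψ, hψ0, hψE⟩ := hNM n K hKc (κ ^ 2) θ (by positivity) hθp
  obtain ⟨v, hv, hv0, hv1, hvl, hvo, hvi⟩ := hAM κ θ ψ hκp hκ1 hθp hψ hψ0 hψE
  have hcv : Continuous v := hv.continuous
  -- lower bound for v
  have hlow : ∀ x, ‖x - x0‖ ≤ R1 → c0 ≤ v x := by
    intro x hx
    have h1 := (hMV v hv (fun y => (hv0 y).1) x r' τ hr'p hτp.le).1 (fun y _ => hvl y)
    have h2 : V0 ≤ ∫ y in ball x (3 / 4 * r'), v y := by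
      have hsub : ball x0 r0 ⊆ ball x (3 / 4 * r') := by
        intro y hy
        rw [mem_ball] at hy ⊢
        have h3 := dist_triangle y x0 x
        rw [dist_comm x0 x, dist_eq_norm x x0] at h3
        rw [hr']
        have : r0 ≤ R1 := by rw [hR1]; linarith
        linarith
      have hvint : ∀ (z : E n) (s : ℝ), IntegrableOn v (ball z s) := by
        intro z s
        exact (hcv.continuousOn.integrableOn_compact (isCompact_closedBall z s)).mono_set
          ball_subset_closedBall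
      calc V0 = ∫ y in ball x0 r0, (1 : ℝ) := by
            rw [setIntegral_const, smul_eq_mul, mul_one, hV0]; rfl
        _ ≤ ∫ y in ball x0 r0, v y := by
            apply setIntegral_mono_on _ (hvint _ _) measurableSet_ball
            · intro y hy
              apply hv1 y
              intro z hz
              apply subset_closure
              apply hρD
              rw [mem_closedBall] at hz
              rw [mem_ball] at hy ⊢
              have := dist_triangle z y x0
              rw [hr0] at hy hεd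
              linarith
            · exact integrableOn_const measure_ball_lt_top.ne
        _ ≤ ∫ y in ball x (3 / 4 * r'), v y := by
            apply setIntegral_mono_set (hvint _ _)
            · filter_upwards with y using (hv0 y).1
            · exact hsub.eventuallyLE
    have h3 : c1 ≤ c * (r'⁻¹) ^ n * (∫ y in ball x (3 / 4 * r'), v y) := by
      rw [hc1]
      exact mul_le_mul_of_nonneg_left h2 (by positivity)
    rw [hc0]
    linarith
  have hgr : ∀ x, 3 / 4 * δ ≤ infDist x K → ‖gr v x‖ ≤ β / 2 * v x + G * τ := by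
    intro x hx
    have h1 := (hMV v hv (fun y => (hv0 y).1) x (δ / 4) τ (by positivity) hτp.le).2 (by
      intro y hy
      apply hvo y
      rw [mem_closedBall] at hy
      have := infDist_le_infDist_add_dist (s := K) (x := x) (y := y)
      rw [dist_comm] at this
      linarith)
    have h2 : A / (δ / 4) * v x ≤ β / 2 * v x := by
      apply mul_le_mul_of_nonneg_right _ (hv0 x).1
      rw [div_le_iff₀ (by positivity)]
      nlinarith
    have h3 : B * (δ / 4 + (δ / 4) ^ 2) * τ = G * τ := by rw [hG]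
    linarith
  have hmain := core hCAL hn hKc hKn x0 (G := G) (c0 := c0) (χ := χ) (β := β)
    hδ hβ hεp hθp (by linarith) hτp hR1p.le hreg hφ (fun x hx => hε1φ x (by linarith))
    hv hv0 hvl (fun x hx => (hvo x hx).1) hlow hgr hε0p hε01 hε02 ht2 hχ hχs hχ1 (by linarith)
    (by linarith) hvi
  refine le_trans (ENNReal.ofReal_le_ofReal ?_) hmain
  have hUp : 0 < 1 + θ + τ * R1 ^ 2 - ε0 := by
    have : 0 ≤ τ * R1 ^ 2 := by positivity
    linarith
  rw [div_mul_eq_mul_div, le_div_iff₀ hUp]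
  change cc * (1 + θ + τ * R1 ^ 2 - ε0) ≤ (1 - θ) * (q - τ * (1 + X1))
  have hz1 : 0 ≤ θ * (τ * (1 + X1)) := by positivity
  have hz2 : 0 ≤ τ * q := by positivity
  have : (1 - θ) * (q - τ * (1 + X1)) - cc * (1 + θ + τ * R1 ^ 2 - ε0) =
      gp - θ * (q + cc) - τ * (1 + X1 + cc * R1 ^ 2 + q) + τ * q + θ * (τ * (1 + X1)) := by
    rw [hgp]; ring
  linarith

end Pool.Agent.N266.TI
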